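import Mathlib

/-! Generic directions: divisibility of the members of a linear system of polynomials by a high
power of `X - c` for generic `c`. -/

set_option autoImplicit false

namespace Pool.Agent.TH111.GD

open Polynomial Module

variable {K : Type} [Field K]

/-- the elements `f` with `(X - c) ^ m ∣ φ f` -/
def DW {V : Type} [AddCommGroup V] [Module K V] (m : ℕ) (c : K) (φ : V →ₗ[K] K[X]) :
    Submodule K V where
  carrier := {f | (X - C c) ^ m ∣ φ f}
  add_mem' {f g} hf hg := by
    show (X - C c) ^ m ∣ φ (f + g)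
    rw [map_add]
    exact dvd_add hf hg
  zero_mem' := by
    show (X - C c) ^ m ∣ φ 0
    rw [map_zero]
    exact dvd_zero _
  smul_mem' a f hf := by
    show (X - C c) ^ m ∣ φ (a • f)
    rw [map_smul, smul_eq_C_mul]
    exact Dvd.dvd.mul_left hf _

theorem mem_DW {V : Type} [AddCommGroup V] [Module K V] {m : ℕ} {c : K} {φ : V →ₗ[K] K[X]}
    {f : V} : f ∈ DW m c φ ↔ (X - C c) ^ m ∣ φ f := Iff.rfl

/-- the operator `q ↦ p q' - p' q` -/
noncomputable def wr (p : K[X]) : K[X] →ₗ[K] K[X] where
  toFun q := p * derivative q - derivative p * q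
  map_add' a b := by
    rw [map_add]
    ring
  map_smul' a b := by
    rw [derivative_smul, RingHom.id_apply, smul_eq_C_mul, smul_eq_C_mul, smul_eq_C_mul]
    ring

theorem wr_apply (p q : K[X]) : wr p q = p * derivative q - derivative p * q := rfl

theorem wr_ne [CharZero K] {p q : K[X]} {c : K} (hp : p.eval c ≠ 0) (hq : q ≠ 0)
    (hc : q.eval c = 0) : wr p q ≠ 0 := by
  intro h
  rw [wr_apply, sub_eq_zero] at h
  have h1 : q.IsRoot c := hc
  have h2 : (derivative q).rootMultiplicity c = q.rootMultiplicity c - 1 :=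
    derivative_rootMultiplicity_of_root h1
  have h3 : 0 < q.rootMultiplicity c := (rootMultiplicity_pos hq).2 h1
  have hp0 : p ≠ 0 := by
    rintro rfl
    simp at hp
  have hdq : derivative q ≠ 0 := by
    intro h0
    have h4 := derivative_eq_zero.1 h0
    rw [eq_C_of_natDegree_eq_zero h4] at hc hq
    rw [eval_C] at hc
    rw [hc, C_0] at hq
    exact hq rfl
  have h5 : (p * derivative q).rootMultiplicity c = q.rootMultiplicity c - 1 := by
    rw [rootMultiplicity_mul (mul_ne_zero hp0 hdq), h2,
      rootMultiplicity_eq_zero (show ¬ p.IsRoot c from hp), zero_add]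
  have h6 : p * derivative q ≠ 0 := mul_ne_zero hp0 hdq
  have h7 : q.rootMultiplicity c ≤ (p * derivative q).rootMultiplicity c := by
    rw [h] at h6 ⊢
    rw [rootMultiplicity_mul h6]
    omega
  omega

theorem gen [CharZero K] (s : ℕ) : ∀ (R : Submodule K K[X]) [FiniteDimensional K R],
    finrank K R ≤ s → ∃ g : K[X], g ≠ 0 ∧ ∀ c : K, g.eval c ≠ 0 → ∀ p ∈ R,
      (X - C c) ^ s ∣ p → p = 0 := by
  induction s with
  | zero =>
    intro R _ hR
    have h0 : R = ⊥ := Submodule.finrank_eq_zero.1 (Nat.le_zero.1 hR)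
    refine ⟨1, one_ne_zero, fun c _ p hp _ => ?_⟩
    rw [h0] at hp
    exact (Submodule.mem_bot K).1 hp
  | succ s ih =>
    intro R _ hR
    by_cases h0 : R = ⊥
    · refine ⟨1, one_ne_zero, fun c _ p hp _ => ?_⟩
      rw [h0] at hp
      exact (Submodule.mem_bot K).1 hp
    obtain ⟨p₁, hp₁, hne⟩ := (Submodule.ne_bot_iff R).1 h0
    have hR' : finrank K (R.map (wr p₁)) ≤ s := by
      have h1 := LinearMap.finrank_range_add_finrank_ker ((wr p₁).domRestrict R)
      have h2 : LinearMap.range ((wr p₁).domRestrict R) = R.map (wr p₁) :=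
        LinearMap.range_domRestrict R (wr p₁)
      rw [h2] at h1
      have h3 : finrank K (LinearMap.ker ((wr p₁).domRestrict R)) ≠ 0 := by
        intro h
        have h4 := Submodule.finrank_eq_zero.1 h
        have h5 : (⟨p₁, hp₁⟩ : R) ∈ LinearMap.ker ((wr p₁).domRestrict R) := by
          rw [LinearMap.mem_ker, LinearMap.domRestrict_apply, wr_apply]
          ring
        rw [h4, Submodule.mem_bot] at h5
        exact hne (congrArg Subtype.val h5)
      omega
    obtain ⟨g, hg, hg'⟩ := ih (R.map (wr p₁)) hR'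
    refine ⟨p₁ * g, mul_ne_zero hne hg, fun c hc p hp hd => ?_⟩
    rw [eval_mul] at hc
    have c1 : p₁.eval c ≠ 0 := left_ne_zero_of_mul hc
    have c2 : g.eval c ≠ 0 := right_ne_zero_of_mul hc
    by_contra hp0
    have hroot : p.eval c = 0 := by
      have h1 : X - C c ∣ p := (dvd_pow_self _ (Nat.succ_ne_zero s)).trans hd
      exact dvd_iff_isRoot.1 h1
    refine wr_ne c1 hp0 hroot (hg' c c2 _ (Submodule.mem_map_of_mem hp) ?_)
    rw [wr_apply]
    refine dvd_sub (Dvd.dvd.mul_left ?_ _) (Dvd.dvd.mul_left ?_ _)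
    · have h2 := pow_sub_one_dvd_derivative_of_pow_dvd hd
      rwa [Nat.add_sub_cancel] at h2
    · exact (pow_dvd_pow _ (Nat.le_succ s)).trans hd

/-- generic directions, one map -/
theorem dir [CharZero K] {V : Type} [AddCommGroup V] [Module K V] [FiniteDimensional K V]
    (φ : V →ₗ[K] K[X]) : ∃ g : K[X], g ≠ 0 ∧ ∀ c : K, g.eval c ≠ 0 → ∀ m : ℕ,
      finrank K (DW m c φ) ≤ max (finrank K (LinearMap.ker φ)) (finrank K V - m) := by
  obtain ⟨g, hg, hg'⟩ := gen (finrank K (LinearMap.range φ)) (LinearMap.range φ) le_rfl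
  refine ⟨g, hg, fun c hc m => ?_⟩
  have hrk := LinearMap.finrank_range_add_finrank_ker φ
  set s := finrank K (LinearMap.range φ) with hs
  -- the coefficients of order `m, ..., s - 1` at `c`
  let ψ : DW m c φ →ₗ[K] (Fin (s - m) → K) :=
    LinearMap.pi fun j => (lcoeff K (m + j)).comp ((taylor c).comp (φ.domRestrict (DW m c φ)))
  have hψ : ∀ (f : DW m c φ) j, ψ f j = (taylor c (φ f)).coeff (m + j) := fun f j => rfl
  have h1 := LinearMap.finrank_range_add_finrank_ker ψ
  have h2 : finrank K (LinearMap.range ψ) ≤ s - m := by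
    refine (Submodule.finrank_le _).trans ?_
    rw [Module.finrank_fin_fun]
  have h3 : finrank K (LinearMap.ker ψ) ≤ finrank K (LinearMap.ker φ) := by
    have hmem : ∀ f : LinearMap.ker ψ, ((f : DW m c φ) : V) ∈ LinearMap.ker φ := by
      intro f
      rw [LinearMap.mem_ker]
      refine hg' c hc _ (LinearMap.mem_range_self φ _) ?_
      have hf := f.2
      rw [LinearMap.mem_ker] at hf
      have hd : (X - C c) ^ m ∣ φ (f : DW m c φ) := (f : DW m c φ).2
      rw [X_sub_C_pow_dvd_iff, X_pow_dvd_iff] at hd ⊢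
      intro i hi
      by_cases him : i < m
      · exact hd i him
      · have h4 := congrFun hf ⟨i - m, by omega⟩
        rw [hψ] at h4
        have h5 : m + (i - m) = i := by omega
        simp only [h5] at h4
        exact h4
    let θ : LinearMap.ker ψ →ₗ[K] LinearMap.ker φ :=
      LinearMap.codRestrict (LinearMap.ker φ)
        ((DW m c φ).subtype.comp (LinearMap.ker ψ).subtype) hmem
    refine LinearMap.finrank_le_finrank_of_injective (f := θ) ?_
    intro a b hab
    have := congrArg Subtype.val hab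
    exact Subtype.ext (Subtype.ext this)
  omega

/-- the conditions `φ i = 0` of the points in `I` and the conditions of the directions of `J` -/
noncomputable def KU {V ι : Type} [AddCommGroup V] [Module K V] (φ : ι → V →ₗ[K] K[X]) (m : ι → ℕ) (c : ι → K)
    (I J : Finset ι) : Submodule K V :=
  (⨅ i ∈ I, LinearMap.ker (φ i)) ⊓ ⨅ j ∈ J, DW (m j) (c j) (φ j)

theorem mem_KU {V ι : Type} [AddCommGroup V] [Module K V] {φ : ι → V →ₗ[K] K[X]} {m : ι → ℕ}
    {c : ι → K} {I J : Finset ι} {f : V} : f ∈ KU φ m c I J ↔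
      (∀ i ∈ I, φ i f = 0) ∧ ∀ j ∈ J, (X - C (c j)) ^ m j ∣ φ j f := by
  unfold KU
  simp only [Submodule.mem_inf, Submodule.mem_iInf, LinearMap.mem_ker, mem_DW]

theorem dw_restrict {V : Type} [AddCommGroup V] [Module K V] [FiniteDimensional K V]
    {m : ℕ} {a : K} (φ : V →ₗ[K] K[X]) (U U' : Submodule K V)
    (h : ∀ f ∈ U', f ∈ U ∧ (X - C a) ^ m ∣ φ f) :
    finrank K U' ≤ finrank K (DW m a (φ.domRestrict U)) := by
  have h1 : U' ≤ (DW m a (φ.domRestrict U)).map U.subtype := by
    intro f hf
    obtain ⟨h2, h3⟩ := h f hf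
    exact Submodule.mem_map.2 ⟨⟨f, h2⟩, h3, rfl⟩
  refine (Submodule.finrank_mono h1).trans ?_
  exact Submodule.finrank_map_le _ _

theorem ker_restrict {V : Type} [AddCommGroup V] [Module K V] [FiniteDimensional K V]
    (φ : V →ₗ[K] K[X]) (U U' : Submodule K V) (h : ∀ f ∈ U, φ f = 0 → f ∈ U') :
    finrank K (LinearMap.ker (φ.domRestrict U)) ≤ finrank K U' := by
  have h1 : (LinearMap.ker (φ.domRestrict U)).map U.subtype ≤ U' := by
    intro f hf
    obtain ⟨g, hg, rfl⟩ := Submodule.mem_map.1 hf
    exact h _ g.2 hg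
  have h2 : finrank K ((LinearMap.ker (φ.domRestrict U)).map U.subtype) =
      finrank K (LinearMap.ker (φ.domRestrict U)) :=
    LinearEquiv.finrank_eq (Submodule.equivMapOfInjective U.subtype U.injective_subtype _).symm
  rw [← h2]
  exact Submodule.finrank_mono h1

theorem exists_eval_ne [CharZero K] {g : K[X]} (hg : g ≠ 0) : ∃ c : K, g.eval c ≠ 0 := by
  by_contra h
  push Not at h
  apply hg
  apply Polynomial.funext
  intro r
  rw [h r, eval_zero]

theorem dirs_aux [CharZero K] {V ι : Type} [AddCommGroup V] [Module K V] [FiniteDimensional K V]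
    [Fintype ι] [DecidableEq ι] (φ : ι → V →ₗ[K] K[X]) (m : ι → ℕ) (h : ι → K[X])
    (hh : ∀ i, h i ≠ 0) (J : Finset ι) : ∃ c : ι → K, (∀ i, (h i).eval (c i) ≠ 0) ∧
      ∀ I : Finset ι, ∃ I' ⊆ J, finrank K (KU φ m c I J) ≤
        finrank K (KU φ m c (I ∪ I') ∅) - ∑ j ∈ J \ I', m j := by
  induction J using Finset.induction_on with
  | empty =>
    choose c hc using fun i => exists_eval_ne (hh i)
    refine ⟨c, hc, fun I => ⟨∅, le_rfl, ?_⟩⟩
    rw [Finset.union_empty]
    simp
  | @insert j J hj ih =>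
    obtain ⟨c, hc, hI⟩ := ih
    choose g hg hg' using fun I : Finset ι => dir ((φ j).domRestrict (KU φ m c I J))
    have hprod : h j * ∏ I : Finset ι, g I ≠ 0 :=
      mul_ne_zero (hh j) (Finset.prod_ne_zero_iff.2 fun I _ => hg I)
    obtain ⟨a, ha⟩ := exists_eval_ne hprod
    rw [eval_mul, eval_prod] at ha
    have ha1 : (h j).eval a ≠ 0 := left_ne_zero_of_mul ha
    have ha2 : ∀ I : Finset ι, (g I).eval a ≠ 0 := fun I =>
      (Finset.prod_ne_zero_iff.1 (right_ne_zero_of_mul ha)) I (Finset.mem_univ I)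
    refine ⟨Function.update c j a, ?_, fun I => ?_⟩
    · intro i
      by_cases hij : i = j
      · subst hij
        rwa [Function.update_self]
      · rw [Function.update_of_ne hij]
        exact hc i
    -- the new space is a space of the form `DW`
    have key : finrank K (KU φ m (Function.update c j a) I (insert j J)) ≤
        finrank K (DW (m j) a ((φ j).domRestrict (KU φ m c I J))) := by
      refine dw_restrict (φ j) _ _ fun f hf => ?_
      rw [mem_KU] at hf
      rw [mem_KU]
      refine ⟨⟨hf.1, fun i hi => ?_⟩, ?_⟩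
      · have h1 := hf.2 i (Finset.mem_insert_of_mem hi)
        have hij : i ≠ j := fun e => hj (e ▸ hi)
        rwa [Function.update_of_ne hij] at h1
      · have h1 := hf.2 j (Finset.mem_insert_self j J)
        rwa [Function.update_self] at h1
    have key2 : finrank K (LinearMap.ker ((φ j).domRestrict (KU φ m c I J))) ≤
        finrank K (KU φ m c (insert j I) J) := by
      refine ker_restrict (φ j) _ _ fun f hf h0 => ?_
      rw [mem_KU] at hf
      rw [mem_KU]
      refine ⟨fun i hi => ?_, hf.2⟩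
      rcases Finset.mem_insert.1 hi with rfl | hi'
      · exact h0
      · exact hf.1 i hi'
    have hKU : ∀ I₁ : Finset ι, KU φ m (Function.update c j a) I₁ ∅ = KU φ m c I₁ ∅ := by
      intro I₁
      ext f
      rw [mem_KU, mem_KU]
      simp
    have hmax := key.trans (hg' I a (ha2 I) (m j))
    rcases le_max_iff.1 hmax with h1 | h1
    · obtain ⟨I', i1, i2⟩ := hI (insert j I)
      refine ⟨insert j I', Finset.insert_subset_insert j i1, ?_⟩
      have e1 : I ∪ insert j I' = insert j I ∪ I' := by
        ext x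
        simp only [Finset.mem_union, Finset.mem_insert]
        tauto
      have e2 : insert j J \ insert j I' = J \ I' := by
        ext x
        simp only [Finset.mem_sdiff, Finset.mem_insert]
        constructor
        · rintro ⟨h3 | h3, h4⟩
          · exact (h4 (Or.inl h3)).elim
          · exact ⟨h3, fun h5 => h4 (Or.inr h5)⟩
        · rintro ⟨h3, h4⟩
          refine ⟨Or.inr h3, ?_⟩
          rintro (h5 | h5)
          · exact hj (h5 ▸ h3)
          · exact h4 h5
      rw [e1, e2, hKU]
      exact h1.trans (key2.trans i2)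
    · obtain ⟨I', i1, i2⟩ := hI I
      refine ⟨I', i1.trans (Finset.subset_insert j J), ?_⟩
      have hjI : j ∉ I' := fun hm => hj (i1 hm)
      have e2 : insert j J \ I' = insert j (J \ I') := Finset.insert_sdiff_of_notMem J hjI
      have e3 : j ∉ J \ I' := fun hm => hj (Finset.mem_sdiff.1 hm).1
      rw [e2, Finset.sum_insert e3, hKU]
      omega

/-- generic directions at several points -/
theorem dirs [CharZero K] {V ι : Type} [AddCommGroup V] [Module K V] [FiniteDimensional K V]
    [Fintype ι] [DecidableEq ι] (φ : ι → V →ₗ[K] K[X]) (m : ι → ℕ) (h : ι → K[X])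
    (hh : ∀ i, h i ≠ 0) : ∃ c : ι → K, (∀ i, (h i).eval (c i) ≠ 0) ∧
      ∃ I : Finset ι, finrank K ↥(⨅ j, DW (m j) (c j) (φ j)) ≤
        finrank K ↥(⨅ i ∈ I, LinearMap.ker (φ i)) - ∑ j ∈ Iᶜ, m j := by
  obtain ⟨c, hc, hI⟩ := dirs_aux φ m h hh Finset.univ
  obtain ⟨I', -, i2⟩ := hI ∅
  refine ⟨c, hc, I', ?_⟩
  have e1 : KU φ m c ∅ Finset.univ = ⨅ j, DW (m j) (c j) (φ j) := by
    unfold KU
    simp
  have e2 : KU φ m c (∅ ∪ I') ∅ = ⨅ i ∈ I', LinearMap.ker (φ i) := by
    unfold KU
    simp
  rw [e1, e2, ← Finset.compl_eq_univ_sdiff] at i2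
  exact i2

/-! ### convexity -/

/-- the modular law for the conditions of a further pair of points -/
theorem super {V ι : Type} [AddCommGroup V] [Module K V] [FiniteDimensional K V]
    [DecidableEq ι] (A : ι → Submodule K V) (I : Finset ι) (a b : ι) :
    finrank K ↥(⨅ i ∈ insert a I, A i) + finrank K ↥(⨅ i ∈ insert b I, A i) ≤
      finrank K ↥(⨅ i ∈ insert a (insert b I), A i) + finrank K ↥(⨅ i ∈ I, A i) := by
  have h1 := Submodule.finrank_sup_add_finrank_inf_eq (⨅ i ∈ insert a I, A i)
    (⨅ i ∈ insert b I, A i)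
  have e1 : (⨅ i ∈ insert a I, A i) ⊓ (⨅ i ∈ insert b I, A i) =
      ⨅ i ∈ insert a (insert b I), A i := by
    ext f
    simp only [Submodule.mem_inf, Submodule.mem_iInf, Finset.mem_insert]
    constructor
    · rintro ⟨h2, h3⟩ i (rfl | h4)
      · exact h2 i (Or.inl rfl)
      · exact h3 i h4
    · intro h2
      refine ⟨fun i h3 => ?_, fun i h3 => h2 i (Or.inr h3)⟩
      rcases h3 with h4 | h4
      · exact h2 i (Or.inl h4)
      · exact h2 i (Or.inr (Or.inr h4))
  have e2 : (⨅ i ∈ insert a I, A i) ⊔ (⨅ i ∈ insert b I, A i) ≤ ⨅ i ∈ I, A i := by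
    refine sup_le ?_ ?_
    · intro f hf
      simp only [Submodule.mem_iInf, Finset.mem_insert] at hf ⊢
      exact fun i hi => hf i (Or.inr hi)
    · intro f hf
      simp only [Submodule.mem_iInf, Finset.mem_insert] at hf ⊢
      exact fun i hi => hf i (Or.inr hi)
  rw [e1] at h1
  have h2 := Submodule.finrank_mono e2
  omega

/-- a convex function which vanishes at the end lies below its chord -/
theorem conv {N : ℕ} (g : ℕ → ℕ) (hg : ∀ i, i + 2 ≤ N → 2 * g (i + 1) ≤ g i + g (i + 2))
    (hN : g N = 0) : ∀ i ≤ N, N * g i ≤ (N - i) * g 0 := by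
  -- backwards: `(k + 1) g (N - k) <= k g (N - k - 1)`
  have key : ∀ k, k + 1 ≤ N → (k + 1) * g (N - k) ≤ k * g (N - k - 1) := by
    intro k
    induction k with
    | zero =>
      intro _
      rw [Nat.sub_zero, hN]
      simp
    | succ k ih =>
      intro hk
      have h1 := ih (by omega)
      have h2 := hg (N - (k + 1) - 1) (by omega)
      have e1 : N - (k + 1) - 1 + 1 = N - (k + 1) := by omega
      have e2 : N - (k + 1) - 1 + 2 = N - k := by omega
      have e3 : N - k - 1 = N - (k + 1) := by omega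
      rw [e1, e2] at h2
      rw [e3] at h1
      nlinarith
  intro i
  induction i with
  | zero =>
    intro _
    rw [Nat.sub_zero]
  | succ i ih =>
    intro hi
    have h1 := ih (by omega)
    have h2 := key (N - (i + 1)) (by omega)
    have e1 : N - (N - (i + 1)) = i + 1 := by omega
    have e2 : i + 1 - 1 = i := by omega
    rw [e1, e2] at h2
    -- `(N - i) g (i + 1) <= (N - i - 1) g i`
    have e3 : N - (i + 1) + 1 = N - i := by omega
    rw [e3] at h2
    have hpos : 0 < N - i := by omega
    have h3 : (N - i) * (N * g (i + 1)) ≤ (N - i) * ((N - (i + 1)) * g 0) := by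
      calc (N - i) * (N * g (i + 1)) = N * ((N - i) * g (i + 1)) := by ring
        _ ≤ N * ((N - (i + 1)) * g i) := Nat.mul_le_mul_left _ h2
        _ = (N - (i + 1)) * (N * g i) := by ring
        _ ≤ (N - (i + 1)) * ((N - i) * g 0) := Nat.mul_le_mul_left _ h1
        _ = (N - i) * ((N - (i + 1)) * g 0) := by ring
    exact Nat.le_of_mul_le_mul_left h3 hpos

end Pool.Agent.TH111.GD
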